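import Pool.Agent.Lib.helper28.HsD

set_option autoImplicit false

namespace Pool.Agent.Results.MP_dc9318_an.No

open Complex Set MeasureTheory ComplexConjugate Pool.Agent.H28Hs
open scoped InnerProductSpace

/-- the elements of `L²(μ)` with the property `P`; for `P = Hol Ω` this is the Bergman space -/
def A2 {α : Type} [MeasurableSpace α] (μ : Measure α) (P : (α → ℂ) → Prop) : Set (Lp ℂ 2 μ) :=
  {g | P g}

/-- the natural domain of the Hankel operator with symbol `φ` -/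
def Dom {α : Type} [MeasurableSpace α] (μ : Measure α) (P : (α → ℂ) → Prop) (φ : α → ℂ) :
    Set (Lp ℂ 2 μ) := {g | P g ∧ MemLp (fun w => φ w * g w) 2 μ}

/-- `T` is a bounded operator that is Hilbert-Schmidt on the subspace `A`: the sum of `‖T e‖²` over
an orthonormal basis of `A` converges -/
def HS {H : Type} [NormedAddCommGroup H] [InnerProductSpace ℂ H] (A : Set H) (T : H → H) : Prop :=
  IsBoundedLinearMap ℂ T ∧ ∃ (ι : Type) (e : ι → H), Orthonormal ℂ e ∧ range e ⊆ A ∧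
    A ⊆ closure (Submodule.span ℂ (range e) : Set H) ∧ Summable fun i => ‖T (e i)‖ ^ 2

/-- the domain of the Hankel operator is dense, and on it `T g = (I - P) (φ g)` -/
def IsHankel {α : Type} [MeasurableSpace α] (μ : Measure α) (P : (α → ℂ) → Prop) (φ : α → ℂ)
    (T : Lp ℂ 2 μ → Lp ℂ 2 μ) : Prop :=
  A2 μ P ⊆ closure (Dom μ P φ) ∧
    ∀ g ∈ Dom μ P φ, P (fun w => φ w * g w - T g w) ∧ ∀ h ∈ A2 μ P, ⟪h, T g⟫_ℂ = 0

/-- the Hankel operator with symbol `φ` extends to a Hilbert-Schmidt operator -/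
def HankelHS {α : Type} [MeasurableSpace α] (μ : Measure α) (P : (α → ℂ) → Prop) (φ : α → ℂ) :
    Prop := ∃ T : Lp ℂ 2 μ → Lp ℂ 2 μ, IsHankel μ P φ T ∧ HS (A2 μ P) T

/-- the Hankel operator with symbol `φ` is zero: `φ g` lies in the space for `g` in the domain -/
def HankelZero {α : Type} [MeasurableSpace α] (μ : Measure α) (P : (α → ℂ) → Prop) (φ : α → ℂ) :
    Prop := ∀ g ∈ Dom μ P φ, P fun w => φ w * g w

/-- On a bounded Reinhardt domain in `ℂⁿ`, `n ≥ 2`, a Hilbert-Schmidt Hankel operator on the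
Bergman space with symbol `conj f`, `f` holomorphic, is zero, and `f` is constant. -/
theorem result (n : ℕ) (hn : 2 ≤ n) (Ω : Set (Fin n → ℂ)) (ho : IsOpen Ω) (hc : IsConnected Ω)
    (hb : Bornology.IsBounded Ω)
    (hR : ∀ w ∈ Ω, ∀ θ : Fin n → ℝ, (fun j => exp (θ j * I) * w j) ∈ Ω)
    (f : (Fin n → ℂ) → ℂ) (hf : DifferentiableOn ℂ f Ω)
    (hH : HankelHS (volume.restrict Ω) (Hol Ω) fun w => conj (f w)) :
    (∃ c, ∀ w ∈ Ω, f w = c) ∧ HankelZero (volume.restrict Ω) (Hol Ω) fun w => conj (f w) := by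
  obtain ⟨T, ⟨hD, hT⟩, hB, ι, e, he, -, hsp, hS⟩ := hH
  obtain ⟨T, rfl⟩ : ∃ T' : Lp ℂ 2 (volume.restrict Ω) →L[ℂ] Lp ℂ 2 (volume.restrict Ω), T' = T :=
    ⟨hB.toContinuousLinearMap T, rfl⟩
  have hR' : Rh Ω := fun w hw w' h => by
    convert hR w hw fun j => arg (w' j) - arg (w j) with j
    have h1 := norm_mul_exp_arg_mul_I (w' j)
    have h2 := norm_mul_exp_arg_mul_I (w j)
    rw [h j] at h1
    rw [ofReal_sub, sub_mul, exp_sub, div_mul_eq_mul_div, eq_div_iff (exp_ne_zero _)]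
    linear_combination exp (arg (w' j) * I) * h2 - exp (arg (w j) * I) * h1
  obtain ⟨c, hc'⟩ := const_of hR' ho hc.2 hf fun β hβ w hw => by
    obtain ⟨d, hd⟩ := cst hR' ho hc.2 (g := fun w => f w * mono (-β) w)
      ((hf.mono inter_subset_left).mul (mono_d _ inter_subset_right))
    rw [hd w hw]
    exact coef_zero hn ho hc hR' hb hf (fun g hg => closure_mono
      (fun g a => And.intro a.1 (hT g a).1) (hD hg)) he hS (fun g a => hsp a) hβ hd
  refine ⟨⟨c, hc'⟩, ?_⟩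
  rintro g ⟨⟨a, a1, a2⟩, -⟩
  refine ⟨fun w => conj c * a w, a1.const_mul _, ?_⟩
  filter_upwards [a2, ae_restrict_mem ho.measurableSet] with w e1 e3
  rw [e1, hc' w e3]

end Pool.Agent.Results.MP_dc9318_an.No
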